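import Pool.Agent.U840.BL.CY

/-!
# Voisin's conjecture on symmetric products for weighted Fermat Calabi-Yau threefolds

For each of the 23 pairs of a degree `m` and weights `w = (w 0, …, w 4)` in the list `cy3List`, let `X_w`
be the weighted Fermat hypersurface `∑ y_i ^ (m / w i) = 0` of degree `m` in `ℙ(w)`. Here `m = ∑ w i`, so
`X_w` has a crepant resolution `X'` which is a Calabi-Yau threefold. The list has for instance the
Fermat quintic, `X_6 ⊂ ℙ(1,1,1,1,2)`, `X_8 ⊂ ℙ(1,1,1,1,4)`, `X_10 ⊂ ℙ(1,1,1,2,5)` (the four families of
Calabi-Yau hypersurfaces with Picard number one), `X_8 ⊂ ℙ(1,1,2,2,2)`, `X_12 ⊂ ℙ(1,1,2,2,6)`.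

**Theorem.** Q1 holds for all these threefolds, all `k ≥ 2` and `j = 0`; in particular Q1 holds for them
with `k = 2` (then `j = 0` is the only case): an `S_k`-invariant zero-cycle on `X' ^ k` whose push-forward
to `X' ^ (k - 1)` is zero in `A_0(X' ^ (k - 1))` is zero in `A_0(X' ^ k)`. The same follows for all
quotients of the `X'` by finite groups (invariant cycles), for instance for the mirror families'
members which are such quotients.

Translation: `X_w` is the quotient of the Fermat hypersurface `X` of degree `m` in `ℙ^4` by the diagonal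
matrices whose `i`-th entries are `w i`-th roots of unity (`y_i = x_i ^ (w i)`), and
`A_0(X' ^ k) = A_0(X_w ^ k) = A_0(X ^ k)^(G ^ k)`. So the theorem is about the zero-cycles `Z` on `X ^ k`
that are invariant under the permutations and under the tuples of such matrices (`WtInv`). Here
`k = q + 1`.

The part of `H^3` generated by the holomorphic three-form has the rank `φ(m)` (2 for `m = 6`, 4 for
`m = 5, 8, 10, 12`, 6 for `m = 9, 14, 18`, 8 for `m = 16, 20, 24, 30`), while the results in the
literature need a two-dimensional transcendental part, or (for `k = 2`, by an argument of Voisin) a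
motive that is a part of the motive of a product of elliptic curves (here `m = 8, 12, 24`). The proof
does not use finite-dimensionality of motives: the
components of the zero-cycles for two different characters of the group of diagonal matrices are
killed by explicit rational curves (starting files `Pool/Agent/T2H37/PR`) as soon as the two characters
can be cut in three blocks with opposite sums, and this is checked for all pairs.
-/

set_option autoImplicit false

namespace Pool.Agent.Results.MP_a2ccc3_ag.WeightedFermatThreefolds

open Pool.Agent.T2H37.PR Pool.Agent.U840.BL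

/-- Voisin's conjecture on symmetric products for zero-cycles, for 23 weighted Fermat Calabi-Yau
threefolds and all `k = q + 1 ≥ 2`. -/
theorem result (m : ℕ) (w : Fin 5 → ℕ) (hw : (m, List.ofFn w) ∈ cy3List) (q : ℕ) (hq : 1 ≤ q)
    (Z : Pts ℂ (fun _ : Fin (q + 1) => 5) m →₀ ℤ)
    (hsym : ∀ (σ : Equiv.Perm (Fin (q + 1))) x, Z (fun j => x (σ j)) = Z x)
    (hinv : WtInv w Z)
    (hpush : ∃ j : ℕ, 0 < j ∧ j • Z.mapDomain (forget (Fin.last q)) ∈
      RatEquivZero ℂ (fun _ : Fin q => 5) m) :
    ∃ j : ℕ, 0 < j ∧ j • Z ∈ RatEquivZero ℂ (fun _ : Fin (q + 1) => 5) m := by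
  have h1 := cy3_dvd _ hw
  refine symChk (by norm_num) h1.1 (fun i => h1.2 _ (List.mem_ofFn.2 ⟨i, rfl⟩)) (cy3_chk _ hw) hq
    (fun σ x => ?_) hinv hpush
  have h5 : ((Equiv.Perm.sign σ : ℤˣ) : ℤ) ^ 2 = 1 := by
    rw [← Units.val_pow_eq_pow_val, Int.units_sq, Units.val_one]
  rw [hsym, show 5 + 1 = 2 * 3 by norm_num, pow_mul, h5, one_pow, one_mul]

end Pool.Agent.Results.MP_a2ccc3_ag.WeightedFermatThreefolds
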